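import Mathlib
import Pool.Agent.H38.HighTrans
import Pool.Agent.H38.Shuffler
import Pool.Agent.H23.HT.Prim
import Pool.Agent.H23.HT.LocFin

/-!
# No property between high transitivity and quasiprimitivity is weakly geometric

We construct finitely generated groups `G` and `H`, both extensions of a locally finite group by `ℤ`, with isomorphic Cayley graphs,
such that `H` is highly transitive, while no group commensurable with `G` (even up to finite kernels) has a faithful action on an
infinite set in which all nontrivial normal subgroups are transitive; in particular none has a faithful primitive or 2-transitive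
action on an infinite set.

Construction.  Let `X = (ℤ →₀ ZMod 3) × ℤ`.  The lamplighter group `L = (ℤ →₀ ZMod 2) ⋊ ℤ` acts on
`X` in two ways: `(ε, n) • (c, m) = (c shifted by n, m + n)` and
`(ε, n) • (c, m) = (ε • (c shifted by n), m + n)`, where `ε` acts by coordinatewise sign changes.
`G` (resp. `H`) is the group of pairs `(π, l)` with `l ∈ L` and `π` a permutation of `X` which
agrees, outside a finite set, with `l` followed by a translation by some `b : ℤ →₀ ZMod 3`, for the
first (resp. second) action.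
-/

set_option autoImplicit false

namespace Pool.Agent.Results.MP_9803f8_al.NoQuasiprimitive

open MulAction Pool.Agent.H38.HT Pool.Agent.H23.HTP

universe u v

/-- A group is highly transitive if it admits a faithful action on an infinite set that is
`k`-transitive for every `k`. -/
def HighlyTransitive (G : Type) [Group G] : Prop :=
  ∃ (Ω : Type) (_ : MulAction G Ω), Infinite Ω ∧ FaithfulSMul G Ω ∧
    ∀ k : ℕ, MulAction.IsMultiplyPretransitive G Ω k

/-- Two groups are (abstractly) commensurable if they have isomorphic subgroups of finite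
index. -/
def AbstractlyCommensurable (G K : Type) [Group G] [Group K] : Prop :=
  ∃ (A : Subgroup G) (B : Subgroup K), A.FiniteIndex ∧ B.FiniteIndex ∧ Nonempty (A ≃* B)

/-- Commensurability up to finite kernels: there are finite-index subgroups `A ≤ G`, `B ≤ K` and
finite normal subgroups `E ⊴ A`, `F ⊴ B` with `A / E ≃ B / F`. -/
def CommensurableUpToFiniteKernels (G K : Type) [Group G] [Group K] : Prop :=
  ∃ (A : Subgroup G) (B : Subgroup K) (E : Subgroup A) (F : Subgroup B)
    (_ : E.Normal) (_ : F.Normal), A.FiniteIndex ∧ B.FiniteIndex ∧ Finite E ∧ Finite F ∧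
      Nonempty (A ⧸ E ≃* B ⧸ F)

/-- Word length of `g` with respect to `S`: the least length of a word in letters from
`S ∪ S⁻¹` whose product is `g`. -/
noncomputable def wordLength {G : Type u} [Group G] (S : Set G) (g : G) : ℕ :=
  sInf {n : ℕ | ∃ l : List G, l.length = n ∧ (∀ s ∈ l, s ∈ S ∨ s⁻¹ ∈ S) ∧ l.prod = g}

/-- `G` and `H` are finitely generated and quasi-isometric (for the word metrics
`d(x,y) = |x⁻¹ y|` of finite generating sets). -/
def QuasiIsometric (G : Type u) (H : Type v) [Group G] [Group H] : Prop :=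
  ∃ (S : Finset G) (T : Finset H), Subgroup.closure (S : Set G) = ⊤ ∧
    Subgroup.closure (T : Set H) = ⊤ ∧
    ∃ (f : G → H) (C : ℕ),
      (∀ x y : G, wordLength (T : Set H) ((f x)⁻¹ * f y) ≤
        C * wordLength (S : Set G) (x⁻¹ * y) + C) ∧
      (∀ x y : G, wordLength (S : Set G) (x⁻¹ * y) ≤
        C * wordLength (T : Set H) ((f x)⁻¹ * f y) + C) ∧
      (∀ h : H, ∃ x : G, wordLength (T : Set H) ((f x)⁻¹ * h) ≤ C)

/-- There are finite generating sets `S` of `G` and `T` of `H` and a bijection from `G` to `H` which preserves the word metrics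
(an isomorphism of the Cayley graphs). -/
def IsometricWordMetrics (G : Type u) (H : Type v) [Group G] [Group H] : Prop :=
  ∃ (S : Finset G) (T : Finset H), Subgroup.closure (S : Set G) = ⊤ ∧
    Subgroup.closure (T : Set H) = ⊤ ∧
    ∃ f : G ≃ H, ∀ x y : G, wordLength (T : Set H) ((f x)⁻¹ * f y) = wordLength (S : Set G) (x⁻¹ * y)

/-- `K` has a faithful `k`-transitive action on an infinite set. -/
def KTransitive (k : ℕ) (K : Type) [Group K] : Prop :=
  ∃ (Ω : Type) (_ : MulAction K Ω), Infinite Ω ∧ FaithfulSMul K Ω ∧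
    MulAction.IsMultiplyPretransitive K Ω k

/-- `K` has a faithful primitive action on an infinite set. -/
def HasPrimitiveAction (K : Type) [Group K] : Prop :=
  ∃ (Ω : Type) (_ : MulAction K Ω), Infinite Ω ∧ FaithfulSMul K Ω ∧ MulAction.IsPreprimitive K Ω

/-- The property `P` is weakly geometric: every (finitely generated) group quasi-isometric to a group with `P` is commensurable with a
group with `P`. -/
def WeaklyGeometric (P : (K : Type) → [Group K] → Prop) : Prop :=
  ∀ (G H : Type) [Group G] [Group H], QuasiIsometric G H → P H →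
    ∃ (K : Type) (_ : Group K), P K ∧ AbstractlyCommensurable G K

lemma exists_word {G : Type u} [Group G] {S : Set G} (hS : Subgroup.closure S = ⊤) (g : G) :
    ∃ l : List G, (∀ s ∈ l, s ∈ S ∨ s⁻¹ ∈ S) ∧ l.prod = g := by
  have : g ∈ (Subgroup.closure S).toSubmonoid := by rw [hS]; trivial
  rw [Subgroup.closure_toSubmonoid] at this
  obtain ⟨l, h1, h2⟩ := Submonoid.exists_list_of_mem_closure this
  exact ⟨l, fun s hs => (h1 s hs).imp id (fun h => h), h2⟩

lemma word_transfer {G : Type u} {H : Type v} [Group G] [Group H] {S : Set G} {T : Set H}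
    (φ : G → H) (h : ∀ g, ∀ s ∈ S, ∃ t ∈ T, φ (g * s) = φ g * t) (l : List G) :
    (∀ s ∈ l, s ∈ S ∨ s⁻¹ ∈ S) → ∀ g : G, ∃ l' : List H, l'.length = l.length ∧
      (∀ s ∈ l', s ∈ T ∨ s⁻¹ ∈ T) ∧ φ (g * l.prod) = φ g * l'.prod := by
  induction l with
  | nil => intro _ g; exact ⟨[], rfl, by simp, by simp⟩
  | cons a l ih =>
    intro hl g
    obtain ⟨l', h1, h2, h3⟩ := ih (fun s hs => hl s (List.mem_cons_of_mem _ hs)) (g * a)
    have ha : ∃ t : H, (t ∈ T ∨ t⁻¹ ∈ T) ∧ φ (g * a) = φ g * t := by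
      rcases hl a List.mem_cons_self with ha | ha
      · obtain ⟨t, ht, ht'⟩ := h g a ha
        exact ⟨t, Or.inl ht, ht'⟩
      · obtain ⟨t, ht, ht'⟩ := h (g * a) a⁻¹ ha
        refine ⟨t⁻¹, Or.inr (by simpa using ht), ?_⟩
        rw [mul_inv_cancel_right] at ht'
        rw [ht', mul_inv_cancel_right]
    obtain ⟨t, ht, ht'⟩ := ha
    refine ⟨t :: l', by simp [h1], ?_, ?_⟩
    · intro s hs
      rcases List.mem_cons.1 hs with rfl | hs
      · exact ht
      · exact h2 s hs
    · rw [List.prod_cons, List.prod_cons, ← mul_assoc, h3, ht', mul_assoc]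

lemma wordLength_le {G : Type u} {H : Type v} [Group G] [Group H] {S : Set G} {T : Set H}
    (hS : Subgroup.closure S = ⊤)
    (φ : G → H) (h : ∀ g, ∀ s ∈ S, ∃ t ∈ T, φ (g * s) = φ g * t) (x y : G) :
    wordLength T ((φ x)⁻¹ * φ y) ≤ wordLength S (x⁻¹ * y) := by
  have hne : {n : ℕ | ∃ l : List G, l.length = n ∧ (∀ s ∈ l, s ∈ S ∨ s⁻¹ ∈ S) ∧
      l.prod = x⁻¹ * y}.Nonempty := by
    obtain ⟨l, h1, h2⟩ := exists_word hS (x⁻¹ * y)
    exact ⟨l.length, l, rfl, h1, h2⟩
  obtain ⟨l, h1, h2, h3⟩ := Nat.sInf_mem hne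
  obtain ⟨l', h1', h2', h3'⟩ := word_transfer φ h l h2 x
  rw [h3, mul_inv_cancel_left] at h3'
  refine Nat.sInf_le ⟨l', ?_, h2', ?_⟩
  · rw [h1', h1]; rfl
  · rw [h3', inv_mul_cancel_left]

lemma closure_transfer {G : Type u} {H : Type v} [Group G] [Group H] {S : Set G} {T : Set H}
    (hS : Subgroup.closure S = ⊤)
    (φ : G → H) (h : ∀ g, ∀ s ∈ S, ∃ t ∈ T, φ (g * s) = φ g * t) (h1 : φ 1 = 1)
    (hsurj : Function.Surjective φ) : Subgroup.closure T = ⊤ := by
  rw [eq_top_iff]
  intro k _
  obtain ⟨g, rfl⟩ := hsurj k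
  obtain ⟨l, hl, hl'⟩ := exists_word hS g
  obtain ⟨l', h1', h2', h3'⟩ := word_transfer φ h l hl 1
  rw [hl', one_mul, h1, one_mul] at h3'
  rw [h3']
  refine Subgroup.list_prod_mem _ (fun s hs => ?_)
  rcases h2' s hs with h | h
  · exact Subgroup.subset_closure h
  · exact (Subgroup.inv_mem_iff _).1 (Subgroup.subset_closure h)

lemma qi_of_cayley {G : Type u} {H : Type v} [Group G] [Group H] (S : Finset G) (T : Finset H)
    (hS : Subgroup.closure (S : Set G) = ⊤) (φ : G ≃ H) (h1 : φ 1 = 1)
    (h : ∀ g, ∀ s ∈ S, ∃ t ∈ T, φ (g * s) = φ g * t)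
    (h' : ∀ g, ∀ t ∈ T, ∃ s ∈ S, φ (g * s) = φ g * t) :
    QuasiIsometric G H := by
  have hT : Subgroup.closure (T : Set H) = ⊤ := closure_transfer hS φ h h1 φ.surjective
  refine ⟨S, T, hS, hT, φ, 1, ?_, ?_, ?_⟩
  · intro x y
    have := wordLength_le hS φ h x y
    omega
  · intro x y
    have h'' : ∀ k, ∀ t ∈ (T : Set H), ∃ s ∈ (S : Set G), φ.symm (k * t) = φ.symm k * s := by
      intro k t ht
      obtain ⟨s, hs, hs'⟩ := h' (φ.symm k) t ht
      refine ⟨s, hs, ?_⟩
      rw [Equiv.symm_apply_eq, hs', Equiv.apply_symm_apply]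
    have := wordLength_le hT φ.symm h'' (φ x) (φ y)
    rw [Equiv.symm_apply_apply, Equiv.symm_apply_apply] at this
    omega
  · intro k
    refine ⟨φ.symm k, ?_⟩
    rw [Equiv.apply_symm_apply, inv_mul_cancel]
    have : wordLength (T : Set H) 1 ≤ 0 := Nat.sInf_le ⟨[], rfl, by simp, rfl⟩
    omega


lemma iso_of_cayley {G : Type u} {H : Type v} [Group G] [Group H] (S : Finset G) (T : Finset H)
    (hS : Subgroup.closure (S : Set G) = ⊤) (φ : G ≃ H) (h1 : φ 1 = 1)
    (h : ∀ g, ∀ s ∈ S, ∃ t ∈ T, φ (g * s) = φ g * t)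
    (h' : ∀ g, ∀ t ∈ T, ∃ s ∈ S, φ (g * s) = φ g * t) :
    IsometricWordMetrics G H := by
  have hT : Subgroup.closure (T : Set H) = ⊤ := closure_transfer hS φ h h1 φ.surjective
  refine ⟨S, T, hS, hT, φ, fun x y => le_antisymm (wordLength_le hS φ h x y) ?_⟩
  have h'' : ∀ k, ∀ t ∈ (T : Set H), ∃ s ∈ (S : Set G), φ.symm (k * t) = φ.symm k * s := by
    intro k t ht
    obtain ⟨s, hs, hs'⟩ := h' (φ.symm k) t ht
    refine ⟨s, hs, ?_⟩
    rw [Equiv.symm_apply_eq, hs', Equiv.apply_symm_apply]
  have := wordLength_le hT φ.symm h'' (φ x) (φ y)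
  rwa [Equiv.symm_apply_apply, Equiv.symm_apply_apply] at this

lemma comm_of_comm {G K : Type} [Group G] [Group K] (h : AbstractlyCommensurable G K) :
    CommensurableUpToFiniteKernels G K := by
  obtain ⟨A, B, hA, hB, ⟨e⟩⟩ := h
  refine ⟨A, B, ⊥, ⊥, inferInstance, inferInstance, hA, hB, inferInstance, inferInstance, ⟨?_⟩⟩
  exact QuotientGroup.quotientBot.trans (e.trans QuotientGroup.quotientBot.symm)

lemma kt_of_ht {K : Type} [Group K] (h : HighlyTransitive K) (k : ℕ) : KTransitive k K := by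
  obtain ⟨Ω, _, h1, h2, h3⟩ := h
  exact ⟨Ω, _, h1, h2, h3 k⟩

lemma prim_of_kt {K : Type} [Group K] {k : ℕ} (hk : 2 ≤ k) (h : KTransitive k K) :
    HasPrimitiveAction K := by
  obtain ⟨Ω, _, h1, h2, h3⟩ := h
  refine ⟨Ω, _, h1, h2, isPreprimitive_of_is_two_pretransitive ?_⟩
  exact isMultiplyPretransitive_of_le' (n := k) hk (by simp)

lemma quasi_of_prim {K : Type} [Group K] (h : HasPrimitiveAction K) :
    HasQuasiprimitiveAction K := by
  obtain ⟨Ω, _, h1, h2, h3⟩ := h
  exact ⟨Ω, _, h1, h2, inferInstance, fun N hn hN => prim_trans Ω N hn hN⟩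

lemma not_comm {K : Type} [Group K] (hK : HasQuasiprimitiveAction K) :
    ¬ CommensurableUpToFiniteKernels (GG false) K := by
  rintro ⟨A, B, E, F, hE, hF, hA, hB, hEf, hFf, ⟨e⟩⟩
  exact no_comm hK A B E F hA hB hEf hFf e

lemma ht_GG : HighlyTransitive (GG true) := by
  refine ⟨X, actX true, inferInstance, ?_, ?_⟩
  · let _ := actX true
    refine ⟨fun {p q} h => ?_⟩
    have : q⁻¹ * p = 1 := by
      apply faith
      intro x
      have h1 : p.1.1 x = q.1.1 x := h x
      show (q.1.1⁻¹ * p.1.1) x = x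
      rw [Equiv.Perm.mul_apply, h1, ← Equiv.Perm.mul_apply, inv_mul_cancel, Equiv.Perm.one_apply]
    exact (inv_mul_eq_one.1 this).symm
  · let _ := actX true
    intro k
    refine ht_of_move ?_ k
    intro F x y hx hy
    exact htX true F x y hx hy

lemma qi_GG : QuasiIsometric (GG false) (GG true) :=
  qi_of_cayley (SS false) (SS true) gen_false phi phi_one edge_fwd edge_bwd

lemma iso_GG : IsometricWordMetrics (GG false) (GG true) :=
  iso_of_cayley (SS false) (SS true) gen_false phi phi_one edge_fwd edge_bwd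

lemma not_ht {K : Type} [Group K] (hK : HasQuasiprimitiveAction K) :
    ¬ AbstractlyCommensurable (GG false) K ∧ ¬ CommensurableUpToFiniteKernels (GG false) K :=
  ⟨fun h' => not_comm hK (comm_of_comm h'), not_comm hK⟩

/-- **No property between high transitivity and quasiprimitivity is weakly geometric.** -/
theorem result :
    (∃ (G H : Type) (_ : Group G) (_ : Group H),
      Group.FG G ∧ Group.FG H ∧ HighlyTransitive H ∧ QuasiIsometric G H ∧
      (∀ (K : Type) [Group K], HighlyTransitive K →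
        ¬ AbstractlyCommensurable G K ∧ ¬ CommensurableUpToFiniteKernels G K) ∧
      IsometricWordMetrics G H ∧ LocallyFiniteByZ G ∧ LocallyFiniteByZ H ∧
      ∀ (K : Type) [Group K], HasQuasiprimitiveAction K →
        ¬ AbstractlyCommensurable G K ∧ ¬ CommensurableUpToFiniteKernels G K) ∧
    (∀ (K : Type) [Group K], (∀ k, HighlyTransitive K → KTransitive k K) ∧
      (∀ k, 2 ≤ k → KTransitive k K → HasPrimitiveAction K) ∧
      (HasPrimitiveAction K → HasQuasiprimitiveAction K)) ∧
    ∀ P : (K : Type) → [Group K] → Prop, (∀ (K : Type) [Group K], HighlyTransitive K → P K) →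
      (∀ (K : Type) [Group K], P K → HasQuasiprimitiveAction K) → ¬ WeaklyGeometric P := by
  refine ⟨⟨GG false, GG true, inferInstance, inferInstance, ?_, ?_, ht_GG, qi_GG, ?_, iso_GG,
    locFin false, locFin true, ?_⟩, ?_, ?_⟩
  · exact ⟨⟨SS false, gen_false⟩⟩
  · obtain ⟨S, T, -, hT, -⟩ := qi_GG
    exact ⟨⟨T, hT⟩⟩
  · intro K _ hK
    exact not_ht (quasi_of_prim (prim_of_kt le_rfl (kt_of_ht hK 2)))
  · intro K _ hK
    exact not_ht hK
  · intro K _
    exact ⟨fun k h => kt_of_ht h k, fun k hk h => prim_of_kt hk h, quasi_of_prim⟩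
  · intro P h1 h2 hw
    obtain ⟨K, _, hK, hc⟩ := hw (GG false) (GG true) qi_GG (h1 _ ht_GG)
    exact (not_ht (h2 K hK)).1 hc

end Pool.Agent.Results.MP_9803f8_al.NoQuasiprimitive
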